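import Pool.Agent.Helper97.FS.Stmts

set_option autoImplicit false

/-! # Module Z2: return near the origin -/

namespace Pool.Agent.Helper97.FS

open Finset MeasureTheory Filter Topology
open scoped ComplexConjugate

theorem st_Z2 : ST_Z2 := by
  intro d ε hε
  have hK : IsCompact (Metric.closedBall (0 : Fin d → ℂ) 1) := isCompact_closedBall _ _
  obtain ⟨t, -, htf, ht⟩ := hK.finite_cover_balls (half_pos hε)
  set T : Finset (Fin d → ℂ) := htf.toFinset with hT
  have hc : (0 : ℝ) < 1 / ((#T : ℝ) + 1) := by positivity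
  refine ⟨1 / ((#T : ℝ) + 1), hc, ?_⟩
  intro G _ _ P hP hinv χ _ hχ1 hχ
  set X : G → (Fin d → ℂ) := fun x a => χ a x with hX
  have hcov : (Set.univ : Set G) ⊆ ⋃ y ∈ T, X ⁻¹' Metric.ball y (ε / 2) := by
    intro x _
    have h1 : X x ∈ Metric.closedBall (0 : Fin d → ℂ) 1 := by
      rw [mem_closedBall_zero_iff, pi_norm_le_iff_of_nonneg zero_le_one]
      intro a
      exact (hχ1 a x).le
    have h2 := ht h1
    simp only [Set.mem_iUnion] at h2 ⊢
    obtain ⟨y, hy, h3⟩ := h2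
    exact ⟨y, htf.mem_toFinset.2 hy, h3⟩
  have hsum : (1 : ENNReal) ≤ ∑ y ∈ T, P (X ⁻¹' Metric.ball y (ε / 2)) := by
    calc (1 : ENNReal) = P Set.univ := (measure_univ).symm
      _ ≤ P (⋃ y ∈ T, X ⁻¹' Metric.ball y (ε / 2)) := measure_mono hcov
      _ ≤ _ := measure_biUnion_finset_le _ _
  have hex : ∃ y ∈ T, ENNReal.ofReal (1 / ((#T : ℝ) + 1)) ≤ P (X ⁻¹' Metric.ball y (ε / 2)) := by
    by_contra hno
    push Not at hno
    have h1 : ∑ y ∈ T, P (X ⁻¹' Metric.ball y (ε / 2)) ≤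
        ∑ y ∈ T, ENNReal.ofReal (1 / ((#T : ℝ) + 1)) :=
      Finset.sum_le_sum (fun y hy => (hno y hy).le)
    rw [Finset.sum_const, nsmul_eq_mul, ← ENNReal.ofReal_natCast,
      ← ENNReal.ofReal_mul (by positivity)] at h1
    have h2 : ENNReal.ofReal ((#T : ℝ) * (1 / ((#T : ℝ) + 1))) < 1 := by
      rw [ENNReal.ofReal_lt_one, mul_one_div, div_lt_one (by positivity)]
      linarith
    exact absurd (hsum.trans h1) (not_le.2 h2)
  obtain ⟨y, -, hy⟩ := hex
  have hne : (X ⁻¹' Metric.ball y (ε / 2)).Nonempty := by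
    rw [Set.nonempty_iff_ne_empty]
    intro h
    rw [h, measure_empty, nonpos_iff_eq_zero, ENNReal.ofReal_eq_zero] at hy
    linarith
  obtain ⟨x₀, hx₀⟩ := hne
  refine hy.trans ?_
  rw [← hinv x₀ {x | ∀ a, ‖χ a x - 1‖ < ε}]
  refine measure_mono ?_
  intro x hx a
  have h1 : dist (X x) (X x₀) < ε := by
    have h2 : dist (X x) y < ε / 2 := hx
    have h3 : dist (X x₀) y < ε / 2 := hx₀
    calc dist (X x) (X x₀) ≤ dist (X x) y + dist (X x₀) y := dist_triangle_right _ _ _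
      _ < ε := by linarith
  have h2 : ‖χ a x - χ a x₀‖ < ε := by
    refine lt_of_le_of_lt ?_ h1
    rw [← dist_eq_norm]
    exact dist_le_pi_dist (X x) (X x₀) a
  have h3 : χ a x₀ * conj (χ a x₀) = 1 := by
    rw [Complex.mul_conj, Complex.normSq_eq_norm_sq, hχ1 a x₀]
    simp
  show ‖χ a (x - x₀) - 1‖ < ε
  rw [hχ]
  have h4 : χ a x * conj (χ a x₀) - 1 = (χ a x - χ a x₀) * conj (χ a x₀) := by
    rw [sub_mul, h3]
  rw [h4, norm_mul, RCLike.norm_conj, hχ1, mul_one]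
  exact h2

end Pool.Agent.Helper97.FS
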